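import Mathlib

set_option autoImplicit false

namespace Pool.Agent.Results.MP_75529e_al.NotSemiprime

/-- three-dimensional algebra over the field with two elements, basis k, u, d, with
k u = k, k d = u, u d = 0 and all squares zero -/
def A : Type := ZMod 2 × ZMod 2 × ZMod 2

instance : AddCommGroup A := inferInstanceAs (AddCommGroup (ZMod 2 × ZMod 2 × ZMod 2))
instance : DecidableEq A := inferInstanceAs (DecidableEq (ZMod 2 × ZMod 2 × ZMod 2))
instance : Fintype A := inferInstanceAs (Fintype (ZMod 2 × ZMod 2 × ZMod 2))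

instance : NonUnitalNonAssocCommRing A :=
  { (inferInstance : AddCommGroup A) with
    mul := fun x y => (x.1 * y.2.1 + x.2.1 * y.1, x.1 * y.2.2 + x.2.2 * y.1, 0)
    left_distrib := by decide +kernel
    right_distrib := by decide +kernel
    zero_mul := by decide +kernel
    mul_zero := by decide +kernel
    mul_comm := by decide +kernel }

def k : A := (1, 0, 0)
def u : A := (0, 1, 0)
def d : A := (0, 0, 1)

theorem gen : ∀ x : A, x ≠ 0 → ∃ a b c : A, a * (b * x) = k ∨ c * x = k := by decide +kernel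

/-- There are a semiprime Jordan ring `J`, an ideal `I` of `J` and a non-zero ideal `K` of the
ring `I` with `K K = 0`. -/
theorem result : ∃ (J : Type) (_ : NonUnitalNonAssocCommRing J),
    (∀ x y : J, (x * x * y) * x = (x * x) * (y * x)) ∧
    (∀ K : AddSubgroup J, (∀ r : J, ∀ a ∈ K, r * a ∈ K) → (∀ a ∈ K, ∀ b ∈ K, a * b = 0) → K = ⊥) ∧
    ∃ I K : AddSubgroup J, (∀ r : J, ∀ a ∈ I, r * a ∈ I) ∧ K ≤ I ∧
      (∀ r ∈ I, ∀ a ∈ K, r * a ∈ K) ∧ K ≠ ⊥ ∧ ∀ a ∈ K, ∀ b ∈ K, a * b = 0 := by
  refine ⟨A, inferInstance, by decide +kernel, ?_, ?_⟩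
  · intro K hK h0
    rw [eq_bot_iff]
    intro x hx
    rw [AddSubgroup.mem_bot]
    by_contra hne
    have hk : k ∈ K := by
      obtain ⟨a, b, c, h | h⟩ := gen x hne
      · exact h ▸ hK _ _ (hK _ _ hx)
      · exact h ▸ hK _ _ hx
    have hu : u ∈ K := by
      have : d * k = u := by decide +kernel
      exact this ▸ hK _ _ hk
    exact absurd (h0 k hk u hu) (by decide +kernel)
  · let I : AddSubgroup A :=
      { carrier := {x | x.2.2 = 0}
        add_mem' := fun {a b} => by revert a b; decide +kernel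
        zero_mem' := rfl
        neg_mem' := fun {a} => by revert a; decide +kernel }
    let K : AddSubgroup A :=
      { carrier := {x | x.2.1 = 0 ∧ x.2.2 = 0}
        add_mem' := fun {a b} => by revert a b; decide +kernel
        zero_mem' := ⟨rfl, rfl⟩
        neg_mem' := fun {a} => by revert a; decide +kernel }
    refine ⟨I, K, fun _ _ _ => rfl, fun _ h => h.2, ?_, ?_, ?_⟩
    · have : ∀ r : A, r.2.2 = 0 → ∀ a : A, (a.2.1 = 0 ∧ a.2.2 = 0) →
        ((r * a).2.1 = 0 ∧ (r * a).2.2 = 0) := by decide +kernel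
      exact this
    · intro h
      have : k ∈ K := ⟨rfl, rfl⟩
      rw [h, AddSubgroup.mem_bot] at this
      exact absurd this (by decide +kernel)
    · have : ∀ a : A, (a.2.1 = 0 ∧ a.2.2 = 0) → ∀ b : A, (b.2.1 = 0 ∧ b.2.2 = 0) →
        a * b = 0 := by decide +kernel
      exact this

end Pool.Agent.Results.MP_75529e_al.NotSemiprime
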